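import Mathlib

set_option autoImplicit false

/-! Codes for oracle computations with a total oracle, and continuity (finite use). -/

namespace Run7.h394.OracleCode

/-- Codes for oracle computations. -/
inductive Code : Type
  | zero : Code
  | succ : Code
  | left : Code
  | right : Code
  | oracle : Code
  | pair : Code → Code → Code
  | comp : Code → Code → Code
  | prec : Code → Code → Code
  | rfind : Code → Code
  deriving Countable

/-- Evaluation of a code with oracle `g`. -/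
def eval : Code → (ℕ → ℕ) → (ℕ →. ℕ)
  | Code.zero, _ => fun _ => (0 : Part ℕ)
  | Code.succ, _ => (Nat.succ : ℕ →. ℕ)
  | Code.left, _ => ((fun n => (Nat.unpair n).1 : ℕ → ℕ) : ℕ →. ℕ)
  | Code.right, _ => ((fun n => (Nat.unpair n).2 : ℕ → ℕ) : ℕ →. ℕ)
  | Code.oracle, g => PFun.lift g
  | Code.pair a b, g => fun n => (Nat.pair <$> eval a g n <*> eval b g n)
  | Code.comp a b, g => fun n => eval b g n >>= eval a g
  | Code.prec a b, g => fun p =>
      n_rec (eval a g) (eval b g) (Nat.unpair p).1 (Nat.unpair p).2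
  | Code.rfind a, g => fun x =>
      Nat.rfind fun n => (fun m => m = 0) <$> eval a g (Nat.pair x n)
where
  n_rec (f h : ℕ →. ℕ) (a : ℕ) (n : ℕ) : Part ℕ :=
    n.rec (f a) fun y IH => do
      let i ← IH
      h (Nat.pair a (Nat.pair y i))

theorem exists_code {g : ℕ → ℕ} {f : ℕ →. ℕ} (hf : Nat.RecursiveIn {PFun.lift g} f) :
    ∃ c, eval c g = f := by
  induction hf with
  | zero => exact ⟨Code.zero, rfl⟩
  | succ => exact ⟨Code.succ, rfl⟩
  | left => exact ⟨Code.left, rfl⟩
  | right => exact ⟨Code.right, rfl⟩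
  | oracle h hh => exact ⟨Code.oracle, by rw [Set.mem_singleton_iff.mp hh]; rfl⟩
  | pair _ _ iha ihb =>
    obtain ⟨a, rfl⟩ := iha
    obtain ⟨b, rfl⟩ := ihb
    exact ⟨Code.pair a b, rfl⟩
  | comp _ _ iha ihb =>
    obtain ⟨a, rfl⟩ := iha
    obtain ⟨b, rfl⟩ := ihb
    exact ⟨Code.comp a b, rfl⟩
  | prec _ _ iha ihb =>
    obtain ⟨a, rfl⟩ := iha
    obtain ⟨b, rfl⟩ := ihb
    exact ⟨Code.prec a b, rfl⟩
  | rfind _ iha =>
    obtain ⟨a, rfl⟩ := iha
    exact ⟨Code.rfind a, rfl⟩

theorem exists_code' {g : ℕ → ℕ} {f : ℕ → ℕ}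
    (hf : TuringReducible (PFun.lift f) (PFun.lift g)) : ∃ c, ∀ n, f n ∈ eval c g n := by
  obtain ⟨c, hc⟩ := exists_code (RecursiveIn.iff_nat.mp hf)
  refine ⟨c, fun n => ?_⟩
  rw [hc]
  simp [PFun.lift]

theorem mem_pair (p q : Part ℕ) (m : ℕ) :
    m ∈ (Nat.pair <$> p <*> q : Part ℕ) ↔ ∃ x ∈ p, ∃ y ∈ q, Nat.pair x y = m := by
  simp [Seq.seq]

/-- Finite use: the set of oracles for which a given computation gives a given value is open. -/
theorem isOpen_eval (c : Code) : ∀ n m : ℕ, IsOpen {g : ℕ → ℕ | m ∈ eval c g n} := by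
  induction c with
  | zero => intro n m; exact isOpen_const (p := m ∈ (0 : Part ℕ))
  | succ => intro n m; exact isOpen_const (p := m ∈ (Nat.succ : ℕ →. ℕ) n)
  | left => intro n m; exact isOpen_const (p := m ∈ ((fun n => (Nat.unpair n).1 : ℕ → ℕ) : ℕ →. ℕ) n)
  | right => intro n m; exact isOpen_const (p := m ∈ ((fun n => (Nat.unpair n).2 : ℕ → ℕ) : ℕ →. ℕ) n)
  | oracle =>
    intro n m
    have : {g : ℕ → ℕ | m ∈ eval Code.oracle g n} = (fun g : ℕ → ℕ => g n) ⁻¹' {m} := by
      ext g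
      simp [eval, PFun.lift, eq_comm]
    rw [this]
    exact (isOpen_discrete _).preimage (continuous_apply n)
  | pair a b iha ihb =>
    intro n m
    have : {g : ℕ → ℕ | m ∈ eval (Code.pair a b) g n}
        = ⋃ (p : ℕ × ℕ) (_ : Nat.pair p.1 p.2 = m),
          ({g : ℕ → ℕ | p.1 ∈ eval a g n} ∩ {g : ℕ → ℕ | p.2 ∈ eval b g n}) := by
      ext g
      simp only [Set.mem_iUnion, Set.mem_inter_iff]
      refine (mem_pair (eval a g n) (eval b g n) m).trans ?_
      constructor
      · rintro ⟨x, hx, y, hy, h⟩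
        exact ⟨(x, y), h, hx, hy⟩
      · rintro ⟨⟨x, y⟩, h, hx, hy⟩
        exact ⟨x, hx, y, hy, h⟩
    rw [this]
    exact isOpen_iUnion fun p => isOpen_iUnion fun _ => (iha _ _).inter (ihb _ _)
  | comp a b iha ihb =>
    intro n m
    have : {g : ℕ → ℕ | m ∈ eval (Code.comp a b) g n}
        = ⋃ (x : ℕ), ({g : ℕ → ℕ | x ∈ eval b g n} ∩ {g : ℕ → ℕ | m ∈ eval a g x}) := by
      ext g
      simp only [Set.mem_iUnion, Set.mem_inter_iff]
      exact Part.mem_bind_iff
    rw [this]
    exact isOpen_iUnion fun x => (ihb _ _).inter (iha _ _)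
  | prec a b iha ihb =>
    intro p
    set x := (Nat.unpair p).1 with hx
    have key : ∀ k m : ℕ, IsOpen {g : ℕ → ℕ | m ∈ eval.n_rec (eval a g) (eval b g) x k} := by
      intro k
      induction k with
      | zero => intro m; exact iha x m
      | succ k ih =>
        intro m
        have : {g : ℕ → ℕ | m ∈ eval.n_rec (eval a g) (eval b g) x (k + 1)}
            = ⋃ (i : ℕ), ({g : ℕ → ℕ | i ∈ eval.n_rec (eval a g) (eval b g) x k}
              ∩ {g : ℕ → ℕ | m ∈ eval b g (Nat.pair x (Nat.pair k i))}) := by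
          ext g
          simp only [Set.mem_iUnion, Set.mem_inter_iff]
          exact Part.mem_bind_iff
        rw [this]
        exact isOpen_iUnion fun i => (ih i).inter (ihb _ _)
    intro m
    exact key _ m
  | rfind a iha =>
    intro n m
    have : {g : ℕ → ℕ | m ∈ eval (Code.rfind a) g n}
        = {g : ℕ → ℕ | 0 ∈ eval a g (Nat.pair n m)} ∩
          ⋂ (j : Fin m), ⋃ (y : ℕ) (_ : y ≠ 0), {g : ℕ → ℕ | y ∈ eval a g (Nat.pair n j)} := by
      ext g
      simp only [Set.mem_iUnion, Set.mem_inter_iff, Set.mem_iInter]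
      refine (Nat.mem_rfind (p := fun k => Part.map (fun m => decide (m = 0))
        (eval a g (Nat.pair n k)))).trans ?_
      constructor
      · rintro ⟨h1, h2⟩
        refine ⟨?_, fun j => ?_⟩
        · obtain ⟨y, hy, h⟩ := (Part.mem_map_iff _).mp h1
          have : y = 0 := by simpa using h
          rwa [this] at hy
        · obtain ⟨y, hy, h⟩ := (Part.mem_map_iff _).mp (h2 j.isLt)
          refine ⟨y, ?_, hy⟩
          simpa using h
      · rintro ⟨h1, h2⟩
        refine ⟨(Part.mem_map_iff _).mpr ⟨0, h1, by simp⟩, fun {j} hj => ?_⟩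
        obtain ⟨y, hy0, hy⟩ := h2 ⟨j, hj⟩
        exact (Part.mem_map_iff _).mpr ⟨y, hy, by simpa using hy0⟩
    rw [this]
    exact (iha _ _).inter (isOpen_iInter_of_finite fun j =>
      isOpen_iUnion fun y => isOpen_iUnion fun _ => iha _ _)

/-- Finite use in terms of initial segments. -/
theorem use (c : Code) (g : ℕ → ℕ) (n m : ℕ) (h : m ∈ eval c g n) :
    ∃ K : ℕ, ∀ g' : ℕ → ℕ, (∀ i < K, g' i = g i) → m ∈ eval c g' n := by
  have h1 := (isOpen_eval c n m).mem_nhds h
  rw [nhds_pi, Filter.mem_pi] at h1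
  obtain ⟨I, hI, t, ht, hsub⟩ := h1
  obtain ⟨K, hK⟩ := hI.bddAbove
  refine ⟨K + 1, fun g' hg' => ?_⟩
  apply hsub
  intro i hi
  have : g' i = g i := hg' i (Nat.lt_succ_of_le (hK hi))
  rw [this]
  exact mem_of_mem_nhds (ht i)

end Run7.h394.OracleCode
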