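import Mathlib
import Pool.Agent.Run7.h394.OracleCode

set_option autoImplicit false

/-! A closed subset of Baire space not Muchnik equivalent to any closed subset of Cantor space. -/

namespace Run7.h394.Muchnik

open OracleCode PiNat

/-- The initial segment of `g` of length `k` decides that the computation `c` at `n` gives `m`. -/
def Dec (c : Code) (g : ℕ → ℕ) (k n m : ℕ) : Prop :=
  ∀ g' : ℕ → ℕ, (∀ i < k, g' i = g i) → m ∈ eval c g' n

/-- `g'` up to `k'` extends `g` up to `k`, obeying the lower bounds `H` on the new part. -/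
def Ext (H : List ℕ → ℕ) (g : ℕ → ℕ) (k : ℕ) (g' : ℕ → ℕ) (k' : ℕ) : Prop :=
  k ≤ k' ∧ (∀ i < k, g' i = g i) ∧ ∀ m, k ≤ m → m < k' → H (res g' m) ≤ g' m

/-- `f` extends `g` up to `k`, obeying the lower bounds `H` on the new part. -/
def Branch (H : List ℕ → ℕ) (g : ℕ → ℕ) (k : ℕ) (f : ℕ → ℕ) : Prop :=
  (∀ i < k, f i = g i) ∧ ∀ m, k ≤ m → H (res f m) ≤ f m

lemma res_congr {g g' : ℕ → ℕ} {m : ℕ} (h : ∀ i < m, g' i = g i) : res g' m = res g m :=
  res_eq_res.mpr fun _ hi => h _ hi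

lemma Ext.refl (H : List ℕ → ℕ) (g : ℕ → ℕ) (k : ℕ) : Ext H g k g k :=
  ⟨le_rfl, fun _ _ => rfl, fun m h1 h2 => by omega⟩

lemma Ext.trans {H H' : List ℕ → ℕ} (hH : ∀ l, H l ≤ H' l) {g g' g'' : ℕ → ℕ} {k k' k'' : ℕ}
    (h1 : Ext H g k g' k') (h2 : Ext H' g' k' g'' k'') : Ext H g k g'' k'' := by
  refine ⟨h1.1.trans h2.1, fun i hi => ?_, fun m hm hm' => ?_⟩
  · rw [h2.2.1 i (lt_of_lt_of_le hi h1.1), h1.2.1 i hi]
  · by_cases h : m < k'
    · have e1 : res g'' m = res g' m := res_congr fun i hi => h2.2.1 i (by omega)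
      rw [e1, h2.2.1 m h]
      exact h1.2.2 m hm h
    · exact (hH _).trans (h2.2.2 m (by omega) hm')

lemma Ext.mono {H H' : List ℕ → ℕ} (hH : ∀ l, H l ≤ H' l) {g g' : ℕ → ℕ} {k k' : ℕ}
    (h1 : Ext H' g k g' k') : Ext H g k g' k' :=
  ⟨h1.1, h1.2.1, fun m a b => (hH _).trans (h1.2.2 m a b)⟩

/-- one more step -/
lemma Ext.succ (H : List ℕ → ℕ) (g : ℕ → ℕ) (k v : ℕ) (hv : H (res g k) ≤ v) :
    Ext H g k (Function.update g k v) (k + 1) := by
  have ha : ∀ i < k, Function.update g k v i = g i := fun i hi =>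
    Function.update_of_ne (by omega) _ _
  refine ⟨by omega, ha, fun m h1 h2 => ?_⟩
  have : m = k := by omega
  subst this
  rw [res_congr ha]
  simpa using hv

lemma Branch.ext {H : List ℕ → ℕ} {g f : ℕ → ℕ} {k : ℕ} (h : Branch H g k f) {K : ℕ} (hK : k ≤ K) :
    Ext H g k f K :=
  ⟨hK, h.1, fun m h1 _ => h.2 m h1⟩

/-- totality is dense below the condition -/
def Den (c : Code) (g : ℕ → ℕ) (k : ℕ) (H : List ℕ → ℕ) : Prop :=
  ∀ H' : List ℕ → ℕ, (∀ l, H l ≤ H' l) → ∀ g' k', Ext H g k g' k' → ∀ n,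
    ∃ g'' k'', Ext H' g' k' g'' k'' ∧ ∃ b : Bool, Dec c g'' k'' n b.toNat

/-- the output stays in the tree of `Q` -/
def InQ (c : Code) (g : ℕ → ℕ) (k : ℕ) (H : List ℕ → ℕ) (Q : Set (ℕ → Bool)) : Prop :=
  ∀ g' k', Ext H g k g' k' → ∀ (q : ℕ → Bool) (n : ℕ), (∀ i < n, Dec c g' k' i (q i).toNat) →
    ∃ y ∈ Q, ∀ i < n, y i = q i

lemma toNat_inj {a b : Bool} (h : a.toNat = b.toNat) : a = b := by
  cases a <;> cases b <;> simp_all

/-- One step of the diagonalisation. -/
lemma step_lemma (Q : Set (ℕ → Bool)) (c : Code) (g : ℕ → ℕ) (k : ℕ) (H : List ℕ → ℕ)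
    (h : ¬ (Den c g k H ∧ InQ c g k H Q)) :
    ∃ g' k' H', Ext H g k g' k' ∧ k < k' ∧ (∀ l, H l ≤ H' l) ∧
      ∀ f, Branch H' g' k' f → ¬ ∃ y ∈ Q, ∀ n, (y n).toNat ∈ eval c f n := by
  by_cases h1 : Den c g k H
  · have h2 : ¬ InQ c g k H Q := fun h2 => h ⟨h1, h2⟩
    unfold InQ at h2
    push Not at h2
    obtain ⟨g', k', hext, q, n, hdec, hno⟩ := h2
    refine ⟨Function.update g' k' (H (res g' k')), k' + 1, H,
      hext.trans (fun _ => le_rfl) (Ext.succ H g' k' _ le_rfl), by have := hext.1; omega,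
      fun _ => le_rfl, ?_⟩
    rintro f hf ⟨y, hyQ, hy⟩
    obtain ⟨i, hi, hne⟩ := hno y hyQ
    have hagree : ∀ i < k', f i = g' i := by
      intro i hi
      rw [hf.1 i (by omega)]
      exact Function.update_of_ne (by omega) _ _
    have h3 := hdec i hi f hagree
    have h4 := hy i
    exact hne (toNat_inj (Part.mem_unique h4 h3))
  · unfold Den at h1
    push Not at h1
    obtain ⟨H', hH, g', k', hext, n, hno⟩ := h1
    refine ⟨Function.update g' k' (H' (res g' k')), k' + 1, H',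
      hext.trans (fun _ => le_rfl) ((Ext.succ H' g' k' _ le_rfl).mono hH),
      by have := hext.1; omega, hH, ?_⟩
    rintro f hf ⟨y, hyQ, hy⟩
    obtain ⟨K, hK⟩ := use c f n _ (hy n)
    have e1 : Ext H' g' k' f (max K (k' + 1)) :=
      (Ext.succ H' g' k' _ le_rfl).trans (fun _ => le_rfl) (hf.ext (le_max_right _ _))
    refine hno f (max K (k' + 1)) e1 (y n) ?_
    intro g'' hg''
    exact hK g'' fun i hi => hg'' i (lt_of_lt_of_le hi (le_max_left _ _))

/-- Main diagonalisation: if every `x ≥ gb` computes an element of `Q`, some condition forces a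
fixed functional to be total with values in `Q`. -/
theorem exists_condition (Q : Set (ℕ → Bool)) (gb : ℕ → ℕ)
    (hQ : ∀ x : ℕ → ℕ, (∀ n, gb n ≤ x n) → ∃ y ∈ Q, ∃ c : Code, ∀ n, (y n).toNat ∈ eval c x n) :
    ∃ c g k H, Den c g k H ∧ InQ c g k H Q := by
  by_contra hne
  push Not at hne
  have : Nonempty Code := ⟨Code.zero⟩
  obtain ⟨e, he⟩ := exists_surjective_nat Code
  have hstep : ∀ (c : Code) (s : (ℕ → ℕ) × ℕ × (List ℕ → ℕ)), ∃ s' : (ℕ → ℕ) × ℕ × (List ℕ → ℕ),
      Ext s.2.2 s.1 s.2.1 s'.1 s'.2.1 ∧ s.2.1 < s'.2.1 ∧ (∀ l, s.2.2 l ≤ s'.2.2 l) ∧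
      ∀ f, Branch s'.2.2 s'.1 s'.2.1 f → ¬ ∃ y ∈ Q, ∀ n, (y n).toNat ∈ eval c f n := by
    intro c s
    obtain ⟨g', k', H', h⟩ := step_lemma Q c s.1 s.2.1 s.2.2 (fun h => hne _ _ _ _ h.1 h.2)
    exact ⟨(g', k', H'), h⟩
  choose nxt hnxt using hstep
  let st : ℕ → (ℕ → ℕ) × ℕ × (List ℕ → ℕ) := fun n =>
    Nat.rec (gb, 0, fun l => gb l.length) (fun n s => nxt (e n) s) n
  have hst : ∀ n, st (n + 1) = nxt (e n) (st n) := fun n => rfl
  have hk : ∀ n, n ≤ (st n).2.1 := by
    intro n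
    induction n with
    | zero => exact Nat.zero_le _
    | succ n ih =>
      have := (hnxt (e n) (st n)).2.1
      rw [← hst] at this
      omega
  have hH : ∀ n m, n ≤ m → ∀ l, (st n).2.2 l ≤ (st m).2.2 l := by
    intro n m hnm
    induction m, hnm using Nat.le_induction with
    | base => exact fun _ => le_rfl
    | succ m _ ih =>
      intro l
      refine (ih l).trans ?_
      rw [hst]
      exact (hnxt (e m) (st m)).2.2.1 l
  have hE : ∀ n m, n ≤ m → Ext (st n).2.2 (st n).1 (st n).2.1 (st m).1 (st m).2.1 := by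
    intro n m hnm
    induction m, hnm using Nat.le_induction with
    | base => exact Ext.refl _ _ _
    | succ m hm ih =>
      refine ih.trans (hH n m hm) ?_
      rw [hst]
      exact (hnxt (e m) (st m)).1
  let f : ℕ → ℕ := fun i => (st (i + 1)).1 i
  have hf : ∀ n i, i < (st n).2.1 → f i = (st n).1 i := by
    intro n i hi
    show (st (i + 1)).1 i = (st n).1 i
    rcases le_total n (i + 1) with h | h
    · exact (hE n (i + 1) h).2.1 i hi
    · exact ((hE (i + 1) n h).2.1 i (lt_of_lt_of_le (Nat.lt_succ_self i) (hk (i + 1)))).symm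
  have hB : ∀ n, Branch (st n).2.2 (st n).1 (st n).2.1 f := by
    intro n
    refine ⟨fun i hi => hf n i hi, fun m hm => ?_⟩
    have hN : n ≤ max n (m + 1) := le_max_left _ _
    have hkN : m < (st (max n (m + 1))).2.1 :=
      lt_of_lt_of_le (lt_of_lt_of_le (Nat.lt_succ_self m) (le_max_right n (m + 1))) (hk _)
    have h1 := (hE n _ hN).2.2 m hm hkN
    have h2 : res f m = res (st (max n (m + 1))).1 m :=
      res_congr fun i hi => hf _ i (by omega)
    rw [h2, hf _ m hkN]
    exact h1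
  have hge : ∀ n, gb n ≤ f n := by
    intro n
    have := (hB 0).2 n (Nat.zero_le _)
    have h0 : (st 0).2.2 (res f n) = gb n := by
      show gb (res f n).length = gb n
      rw [res_length]
    rwa [h0] at this
  obtain ⟨y, hyQ, c, hy⟩ := hQ f hge
  obtain ⟨n, rfl⟩ := he c
  have := (hnxt (e n) (st n)).2.2.2 f (by rw [← hst]; exact hB (n + 1))
  exact this ⟨y, hyQ, hy⟩

/-- Barrier predicate: there is a well-founded tree above the initial segment of `g` of length `k`,
each inner node having successors with arbitrarily large last entry, whose leaves decide the first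
`n` bits to be those of `q`. -/
inductive W (c : Code) (q : ℕ → Bool) (n : ℕ) : (ℕ → ℕ) → ℕ → Prop
  | base (g : ℕ → ℕ) (k : ℕ) (h : ∀ i < n, Dec c g k i (q i).toNat) : W c q n g k
  | step (g : ℕ → ℕ) (k : ℕ) (G : ℕ → ℕ → ℕ) (h1 : ∀ N, ∀ i < k, G N i = g i)
      (h2 : ∀ N, N ≤ G N k) (h3 : ∀ N, W c q n (G N) (k + 1)) : W c q n g k

lemma W.congr {c : Code} {q : ℕ → Bool} {n : ℕ} {g g' : ℕ → ℕ} {k : ℕ}
    (h : W c q n g k) (hg : ∀ i < k, g' i = g i) : W c q n g' k := by
  cases h with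
  | base _ _ h =>
    refine W.base _ _ fun i hi g'' hg'' => h i hi g'' fun j hj => ?_
    rw [hg'' j hj, hg j hj]
  | step _ _ G h1 h2 h3 =>
    refine W.step _ _ G (fun N i hi => ?_) h2 h3
    rw [h1 N i hi, hg i hi]

lemma W.congr_q {c : Code} {q q' : ℕ → Bool} {n n' : ℕ} (hn : n' ≤ n) (hq : ∀ i < n', q' i = q i)
    {g : ℕ → ℕ} {k : ℕ} (h : W c q n g k) : W c q' n' g k := by
  induction h with
  | base g k h =>
    refine W.base _ _ fun i hi => ?_
    rw [hq i hi]
    exact h i (lt_of_lt_of_le hi hn)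
  | step g k G h1 h2 _ ih => exact W.step _ _ G h1 h2 ih

/-- Claim C -/
lemma W.inQ {c : Code} {q : ℕ → Bool} {n : ℕ} {g g' : ℕ → ℕ} {k k' : ℕ} {H : List ℕ → ℕ}
    {Q : Set (ℕ → Bool)} (hin : InQ c g k H Q) (h : W c q n g' k') (hext : Ext H g k g' k') :
    ∃ y ∈ Q, ∀ i < n, y i = q i := by
  induction h with
  | base g' k' h => exact hin g' k' hext q n h
  | step g' k' G h1 h2 _ ih =>
    apply ih (H (res g' k'))
    refine hext.trans (fun _ => le_rfl) ⟨by omega, h1 _, fun m hm hm' => ?_⟩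
    have : m = k' := by omega
    subst this
    rw [res_congr (h1 _)]
    exact h2 _

/-- extension of a finite bit string -/
def extB {n : ℕ} (u : Fin n → Bool) : ℕ → Bool := fun i => if h : i < n then u ⟨i, h⟩ else false

/-- Claim D -/
lemma exists_W {c : Code} {g : ℕ → ℕ} {k : ℕ} {H : List ℕ → ℕ} (hden : Den c g k H) (n : ℕ) :
    ∃ q, W c q n g k := by
  classical
  by_contra hcon
  -- Y g k
  let Y : (ℕ → ℕ) → ℕ → Prop := fun g k => ∃ u : Fin n → Bool, W c (extB u) n g k
  have hY : ¬ Y g k := fun ⟨u, hu⟩ => hcon ⟨_, hu⟩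
  have hYcongr : ∀ {g g' : ℕ → ℕ} {k : ℕ}, (∀ i < k, g' i = g i) → Y g k → Y g' k :=
    fun hg ⟨u, hu⟩ => ⟨u, hu.congr hg⟩
  -- bounds
  have hbound : ∀ l : List ℕ, ∃ N : ℕ, ∀ g' : ℕ → ℕ, res g' l.length = l → ¬ Y g' l.length →
      ∀ g'' : ℕ → ℕ, (∀ i < l.length, g'' i = g' i) → N ≤ g'' l.length → ¬ Y g'' (l.length + 1) := by
    intro l
    by_cases hex : ∃ g' : ℕ → ℕ, res g' l.length = l ∧ ¬ Y g' l.length
    · obtain ⟨g0, hg0, hY0⟩ := hex
      have key : ∃ N : ℕ, ∀ g'' : ℕ → ℕ, (∀ i < l.length, g'' i = g0 i) → N ≤ g'' l.length →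
          ¬ Y g'' (l.length + 1) := by
        by_contra hc
        push Not at hc
        -- pigeonhole
        have hp : ∃ u : Fin n → Bool, ∀ N, ∃ g'' : ℕ → ℕ, (∀ i < l.length, g'' i = g0 i) ∧
            N ≤ g'' l.length ∧ W c (extB u) n g'' (l.length + 1) := by
          by_contra hc2
          push Not at hc2
          choose M hM using hc2
          obtain ⟨g'', h1, h2, u, h3⟩ := hc (Finset.univ.sup M)
          exact hM u g'' h1 ((Finset.le_sup (Finset.mem_univ u)).trans h2) h3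
        obtain ⟨u, hu⟩ := hp
        choose G h1 h2 h3 using hu
        exact hY0 ⟨u, W.step _ _ G h1 h2 h3⟩
      obtain ⟨N, hN⟩ := key
      refine ⟨N, fun g' hg' _ g'' hg'' hle => hN g'' (fun i hi => ?_) hle⟩
      rw [hg'' i hi]
      exact (res_eq_res.mp (hg'.trans hg0.symm)) hi
    · push Not at hex
      exact ⟨0, fun g' hg' hn => absurd (hex g' hg') hn⟩
  choose N hN using hbound
  set H' : List ℕ → ℕ := fun l => max (H l) (N l) with hH'
  have hle : ∀ l, H l ≤ H' l := fun l => le_max_left _ _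
  -- all extensions stay outside Y
  have hstay : ∀ g' k', Ext H' g k g' k' → ¬ Y g' k' := by
    intro g' k' hext
    have h : ∀ m, k ≤ m → m ≤ k' → ¬ Y g' m := by
      intro m hm
      induction m, hm using Nat.le_induction with
      | base =>
        intro _ hy
        exact hY (hYcongr (fun i hi => (hext.2.1 i hi).symm) hy)
      | succ m hm ih =>
        intro hm'
        have h1 := ih (by omega)
        have h2 := hext.2.2 m hm (by omega)
        have h3 := hN (res g' m) g' (by rw [res_length]) (by rw [res_length]; exact h1) g'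
          (fun _ _ => rfl) (by rw [res_length]; exact (le_max_right _ _).trans h2)
        rwa [res_length] at h3
    exact h k' hext.1 le_rfl
  -- but totality is dense
  have hall : ∀ j, ∃ g' k', Ext H' g k g' k' ∧ ∃ q : ℕ → Bool, ∀ i < j, Dec c g' k' i (q i).toNat := by
    intro j
    induction j with
    | zero => exact ⟨g, k, Ext.refl _ _ _, fun _ => false, fun i hi => absurd hi (Nat.not_lt_zero _)⟩
    | succ j ih =>
      obtain ⟨g', k', hext, q, hq⟩ := ih
      obtain ⟨g'', k'', hext', b, hb⟩ := hden H' hle g' k' (hext.mono hle) j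
      refine ⟨g'', k'', hext.trans (fun _ => le_rfl) hext', Function.update q j b, fun i hi => ?_⟩
      by_cases hij : i = j
      · subst hij
        simpa using hb
      · rw [Function.update_of_ne hij]
        intro f hf
        refine hq i (by omega) f fun a ha => ?_
        rw [hf a (lt_of_lt_of_le ha hext'.1), hext'.2.1 a ha]
  obtain ⟨g', k', hext, q, hq⟩ := hall n
  refine hstay g' k' hext ⟨fun i => q i, ?_⟩
  refine W.base _ _ fun i hi => ?_
  have : extB (fun i : Fin n => q i) i = q i := by simp [extB, hi]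
  rw [this]
  exact hq i hi

/-- Claim E: Koenig -/
lemma exists_path (c : Code) (g : ℕ → ℕ) (k : ℕ) (h : ∀ n, ∃ q, W c q n g k) :
    ∃ q : ℕ → Bool, ∀ n, W c q n g k := by
  have hclosed : ∀ n, IsClosed {q : ℕ → Bool | W c q n g k} := by
    intro n
    rw [← isOpen_compl_iff, isOpen_iff_mem_nhds]
    intro q hq
    have : {q' : ℕ → Bool | ∀ i < n, q' i = q i} ∈ nhds q := by
      rw [nhds_pi, Filter.mem_pi]
      refine ⟨Set.Iio n, Set.finite_Iio n, fun i => {q i}, fun i => ?_, ?_⟩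
      · exact (isOpen_discrete _).mem_nhds rfl
      · intro q' hq' i hi
        exact hq' i hi
    filter_upwards [this] with q' hq' hW
    exact hq (W.congr_q le_rfl (fun i hi => (hq' i hi).symm) hW)
  have := IsCompact.nonempty_iInter_of_sequence_nonempty_isCompact_isClosed
    (fun n => {q : ℕ → Bool | W c q n g k})
    (fun n q hq => W.congr_q (Nat.le_succ n) (fun _ _ => rfl) hq)
    h (hclosed 0).isCompact hclosed
  obtain ⟨q, hq⟩ := this
  exact ⟨q, fun n => Set.mem_iInter.mp hq n⟩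

theorem main :
    ∃ P : Set (ℕ → ℕ), IsClosed P ∧
      ∀ Q : Set (ℕ → Bool), IsClosed Q →
        ¬ ((∀ x ∈ P, ∃ y ∈ Q,
              TuringReducible (PFun.lift (fun n => (y n).toNat)) (PFun.lift x)) ∧
           (∀ y ∈ Q, ∃ x ∈ P,
              TuringReducible (PFun.lift x) (PFun.lift (fun n => (y n).toNat)))) := by
  classical
  -- the countable family of selected paths
  let sel : Code × List ℕ → (ℕ → Bool) := fun p =>
    if h : ∃ q : ℕ → Bool, ∃ g : ℕ → ℕ, res g p.2.length = p.2 ∧ ∀ n, W p.1 q n g p.2.length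
    then h.choose else fun _ => false
  have hsel : ∀ (c : Code) (g : ℕ → ℕ) (k : ℕ), (∃ q : ℕ → Bool, ∀ n, W c q n g k) →
      ∀ n, W c (sel (c, res g k)) n g k := by
    intro c g k ⟨q, hq⟩ n
    have h : ∃ q : ℕ → Bool, ∃ g' : ℕ → ℕ, res g' (res g k).length = res g k ∧
        ∀ n, W c q n g' (res g k).length :=
      ⟨q, g, by rw [res_length], by rw [res_length]; exact hq⟩
    have e : sel (c, res g k) = h.choose := dif_pos h
    obtain ⟨g', hg', hW⟩ := h.choose_spec
    rw [e]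
    have hW' := hW n
    generalize h.choose = q0 at hW'
    rw [res_length] at hW' hg'
    exact hW'.congr fun i hi => (res_eq_res.mp hg' hi).symm
  -- the countable family of computable reals
  let val : Code × List ℕ × Code → (ℕ → ℕ) := fun p =>
    if h : ∃ x : ℕ → ℕ, ∀ n, x n ∈ eval p.2.2 (fun i => (sel (p.1, p.2.1) i).toNat) n
    then h.choose else fun _ => 0
  have : Nonempty (Code × List ℕ × Code) := ⟨(Code.zero, [], Code.zero)⟩
  obtain ⟨e, he⟩ := exists_surjective_nat (Code × List ℕ × Code)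
  let gb : ℕ → ℕ := fun n => val (e n) n + 1
  refine ⟨{x | ∀ n, gb n ≤ x n}, ?_, ?_⟩
  · have : {x : ℕ → ℕ | ∀ n, gb n ≤ x n} = ⋂ n, (fun x : ℕ → ℕ => x n) ⁻¹' Set.Ici (gb n) := by
      ext x; simp
    rw [this]
    exact isClosed_iInter fun n => (isClosed_discrete _).preimage (continuous_apply n)
  · rintro Q hQ ⟨ha, hb⟩
    obtain ⟨c, g, k, H, hden, hin⟩ := exists_condition Q gb (by
      intro x hx
      obtain ⟨y, hy, hred⟩ := ha x hx
      obtain ⟨c, hc⟩ := exists_code' hred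
      exact ⟨y, hy, c, hc⟩)
    have hpath := hsel c g k (exists_path c g k (exists_W hden))
    set q := sel (c, res g k) with hq
    have hqQ : q ∈ Q := by
      rw [← hQ.closure_eq, mem_closure_iff_nhds]
      intro t ht
      rw [nhds_pi, Filter.mem_pi] at ht
      obtain ⟨I, hI, u, hu, hsub⟩ := ht
      obtain ⟨K, hK⟩ := hI.bddAbove
      obtain ⟨y, hy, hyq⟩ := (hpath (K + 1)).inQ hin (Ext.refl H g k)
      refine ⟨y, hsub ?_, hy⟩
      intro i hi
      rw [hyq i (Nat.lt_succ_of_le (hK hi))]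
      exact mem_of_mem_nhds (hu i)
    obtain ⟨x, hx, hred⟩ := hb q hqQ
    obtain ⟨c', hc'⟩ := exists_code' hred
    obtain ⟨n, hn⟩ := he (c, res g k, c')
    have h : ∃ x : ℕ → ℕ, ∀ n, x n ∈ eval c' (fun i => (sel (c, res g k) i).toNat) n := ⟨x, hc'⟩
    have e1 : val (c, res g k, c') = h.choose := dif_pos h
    have e2 : h.choose = x := by
      funext m
      exact Part.mem_unique (h.choose_spec m) (hc' m)
    have h1 := hx n
    have h2 : gb n = x n + 1 := by
      show val (e n) n + 1 = x n + 1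
      rw [hn, e1, e2]
    omega

end Run7.h394.Muchnik
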