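import Mathlib

set_option autoImplicit false

open Finset

namespace Run7.h394.Relax

/-! ### Discrete Wirtinger inequality on a cycle -/

section Fourier

variable {N : ℕ} [NeZero N]

/-- Finite Fourier transform used below. -/
noncomputable def F (b : ZMod N → ℂ) (k : ZMod N) : ℂ := ∑ j, b j * ZMod.stdAddChar (j * k)

lemma conj_char (x : ZMod N) :
    (starRingEnd ℂ) (ZMod.stdAddChar x) = ZMod.stdAddChar (-x) := by
  rw [AddChar.map_neg_eq_conj]

lemma parseval (b : ZMod N → ℂ) :
    ∑ k, Complex.normSq (F b k) = N * ∑ j, Complex.normSq (b j) := by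
  classical
  have h : (∑ k, ((Complex.normSq (F b k) : ℝ) : ℂ)) = N * ∑ j, ((Complex.normSq (b j) : ℝ) : ℂ) := by
    have h1 : ∀ k, ((Complex.normSq (F b k) : ℝ) : ℂ)
        = ∑ j, ∑ l, (b j * (starRingEnd ℂ) (b l)) * ZMod.stdAddChar (k * (j - l)) := by
      intro k
      rw [← Complex.mul_conj]
      unfold F
      rw [map_sum, Finset.sum_mul_sum]
      refine Finset.sum_congr rfl fun j _ => Finset.sum_congr rfl fun l _ => ?_
      rw [RingHom.map_mul, conj_char]
      have : k * (j - l) = j * k + -(l * k) := by ring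
      rw [this, AddChar.map_add_eq_mul]
      ring
    simp_rw [h1]
    rw [Finset.sum_comm]
    rw [Finset.mul_sum]
    refine Finset.sum_congr rfl fun j _ => ?_
    rw [Finset.sum_comm]
    simp_rw [← Finset.mul_sum]
    have h2 : ∀ l, (b j * (starRingEnd ℂ) (b l)) * ∑ k : ZMod N, ZMod.stdAddChar (k * (j - l))
        = if l = j then (N : ℂ) * (b j * (starRingEnd ℂ) (b j)) else 0 := by
      intro l
      rw [AddChar.sum_mulShift _ (ZMod.isPrimitive_stdAddChar N)]
      by_cases hl : l = j
      · subst hl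
        simp
        ring
      · have : j - l ≠ 0 := sub_ne_zero.mpr (Ne.symm hl)
        simp [this, hl]
    simp_rw [h2]
    rw [Finset.sum_ite_eq' Finset.univ j]
    simp [Complex.mul_conj]
  exact_mod_cast h

lemma F_diff (b : ZMod N → ℂ) (k : ZMod N) :
    F (fun j => b (j + 1) - b j) k = (ZMod.stdAddChar (-k) - 1) * F b k := by
  unfold F
  simp_rw [sub_mul]
  rw [Finset.sum_sub_distrib, one_mul]
  congr 1
  rw [Finset.mul_sum]
  rw [← Equiv.sum_comp (Equiv.addRight (1 : ZMod N)) (fun j => (ZMod.stdAddChar (-k) : ℂ) * (b j * ZMod.stdAddChar (j * k)))]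
  refine Finset.sum_congr rfl fun j _ => ?_
  simp only [Equiv.coe_addRight]
  have : (j + 1) * k = j * k + k := by ring
  rw [this, AddChar.map_add_eq_mul]
  have h : (ZMod.stdAddChar (-k) : ℂ) * ZMod.stdAddChar k = 1 := by
    rw [← AddChar.map_add_eq_mul]; simp
  linear_combination (-(b (j + 1) * ZMod.stdAddChar (j * k))) * h

lemma char_gap (k : ZMod N) (hk : k ≠ 0) :
    2 - 2 * Real.cos (2 * Real.pi / N) ≤ Complex.normSq (ZMod.stdAddChar k - 1 : ℂ) := by
  have hN : (0 : ℝ) < N := by exact_mod_cast Nat.pos_of_ne_zero (NeZero.ne N)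
  have hlt : k.val < N := ZMod.val_lt k
  have hpos : 0 < k.val := by
    rcases Nat.eq_zero_or_pos k.val with h | h
    · exact absurd ((ZMod.val_eq_zero k).mp h) hk
    · exact h
  have h1 : (ZMod.stdAddChar k : ℂ) = Complex.exp (((2 * Real.pi * k.val / N : ℝ) : ℂ) * Complex.I) := by
    have := ZMod.stdAddChar_coe (N := N) (k.val : ℤ)
    rw [show (((k.val : ℤ)) : ZMod N) = k by simp] at this
    rw [this]
    congr 1
    push_cast
    ring
  set φ : ℝ := 2 * Real.pi * k.val / N with hφ
  rw [h1, Complex.exp_mul_I]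
  have h2 : Complex.normSq (Complex.cos φ + Complex.sin φ * Complex.I - 1) = 2 - 2 * Real.cos φ := by
    rw [Complex.normSq_apply]
    simp [← Complex.ofReal_cos, ← Complex.ofReal_sin]
    nlinarith [Real.sin_sq_add_cos_sq φ]
  rw [h2]
  have h3 : Real.cos φ ≤ Real.cos (2 * Real.pi / N) := by
    rcases le_total φ Real.pi with h | h
    · apply Real.cos_le_cos_of_nonneg_of_le_pi _ h
      · rw [hφ, div_le_div_iff_of_pos_right hN]
        have : (1 : ℝ) ≤ k.val := by exact_mod_cast hpos
        nlinarith [Real.pi_pos]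
      · positivity
    · have h4 : Real.cos φ = Real.cos (2 * Real.pi - φ) := by
        rw [Real.cos_two_pi_sub]
      rw [h4]
      apply Real.cos_le_cos_of_nonneg_of_le_pi
      · positivity
      · linarith
      · rw [hφ, le_sub_iff_add_le, ← add_div, div_le_iff₀ hN]
        have : (k.val : ℝ) + 1 ≤ N := by exact_mod_cast hlt
        nlinarith [Real.pi_pos]
  linarith

lemma wirtinger_zmod (b : ZMod N → ℝ) (h0 : ∑ j, b j = 0) :
    (2 - 2 * Real.cos (2 * Real.pi / N)) * ∑ j, b j ^ 2 ≤ ∑ j, (b (j + 1) - b j) ^ 2 := by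
  have hN : (0 : ℝ) < N := by exact_mod_cast Nat.pos_of_ne_zero (NeZero.ne N)
  set κ : ℝ := 2 - 2 * Real.cos (2 * Real.pi / N)
  have hP1 := parseval (fun j => ((b j : ℝ) : ℂ))
  have hP2 := parseval (fun j => ((b (j + 1) : ℝ) : ℂ) - ((b j : ℝ) : ℂ))
  have e1 : ∑ j, Complex.normSq ((b j : ℝ) : ℂ) = ∑ j, b j ^ 2 := by
    refine Finset.sum_congr rfl fun j _ => ?_
    rw [Complex.normSq_ofReal]; ring
  have e2 : ∑ j, Complex.normSq (((b (j + 1) : ℝ) : ℂ) - ((b j : ℝ) : ℂ)) = ∑ j, (b (j + 1) - b j) ^ 2 := by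
    refine Finset.sum_congr rfl fun j _ => ?_
    rw [← Complex.ofReal_sub, Complex.normSq_ofReal]; ring
  rw [e1] at hP1
  rw [e2] at hP2
  have hle : κ * ∑ k, Complex.normSq (F (fun j => ((b j : ℝ) : ℂ)) k)
      ≤ ∑ k, Complex.normSq (F (fun j => ((b (j + 1) : ℝ) : ℂ) - ((b j : ℝ) : ℂ)) k) := by
    rw [Finset.mul_sum]
    refine Finset.sum_le_sum fun k _ => ?_
    rw [F_diff (fun j => ((b j : ℝ) : ℂ)) k, Complex.normSq_mul]
    by_cases hk : k = 0
    · subst hk
      have : F (fun j => ((b j : ℝ) : ℂ)) 0 = 0 := by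
        unfold F
        simp only [mul_zero, AddChar.map_zero_eq_one, mul_one]
        exact_mod_cast h0
      simp [this]
    · exact mul_le_mul_of_nonneg_right (char_gap (-k) (neg_ne_zero.mpr hk)) (Complex.normSq_nonneg _)
  rw [hP1, hP2] at hle
  have : (N : ℝ) * (κ * ∑ j, b j ^ 2) ≤ N * ∑ j, (b (j + 1) - b j) ^ 2 := by
    calc (N : ℝ) * (κ * ∑ j, b j ^ 2) = κ * (N * ∑ j, b j ^ 2) := by ring
      _ ≤ _ := hle
  exact le_of_mul_le_mul_left this hN

end Fourier

lemma val_succ (n : ℕ) (a : ℕ → ℝ) (ha : a (n + 1) = a 0) (j : ZMod (n + 1)) :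
    a (j + 1).val = a (j.val + 1) := by
  have hj1 : j + 1 = ((j.val + 1 : ℕ) : ZMod (n + 1)) := by simp
  have hlt := ZMod.val_lt j
  by_cases hj : j.val + 1 < n + 1
  · rw [hj1, ZMod.val_natCast_of_lt hj]
  · have hj' : j.val + 1 = n + 1 := by omega
    rw [hj1, hj', ZMod.natCast_self, ZMod.val_zero, ha]

/-- Discrete Wirtinger inequality for a closed sequence `a 0, a 1, …, a N = a 0`. -/
theorem wirtinger (N : ℕ) (hN : 0 < N) (a : ℕ → ℝ) (ha : a N = a 0) (c : ℝ)
    (hc : ∑ i ∈ range N, (a i - c) = 0) :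
    (2 - 2 * Real.cos (2 * Real.pi / N)) * ∑ i ∈ range N, (a i - c) ^ 2
      ≤ ∑ i ∈ range N, (a (i + 1) - a i) ^ 2 := by
  obtain ⟨n, rfl⟩ : ∃ n, N = n + 1 := ⟨N - 1, by omega⟩
  have e0 : ∑ j : ZMod (n + 1), (a j.val - c) = ∑ i ∈ range (n + 1), (a i - c) :=
    Fin.sum_univ_eq_sum_range (fun i => a i - c) (n + 1)
  have key := wirtinger_zmod (N := n + 1) (fun j => a j.val - c) (e0.trans hc)
  have e1 : ∑ j : ZMod (n + 1), (a j.val - c) ^ 2 = ∑ i ∈ range (n + 1), (a i - c) ^ 2 :=
    Fin.sum_univ_eq_sum_range (fun i => (a i - c) ^ 2) (n + 1)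
  have e2 : ∑ j : ZMod (n + 1), ((a (j + 1).val - c) - (a j.val - c)) ^ 2
      = ∑ i ∈ range (n + 1), (a (i + 1) - a i) ^ 2 := by
    have e3 : ∑ j : ZMod (n + 1), (a (j.val + 1) - a j.val) ^ 2
        = ∑ i ∈ range (n + 1), (a (i + 1) - a i) ^ 2 :=
      Fin.sum_univ_eq_sum_range (fun i => (a (i + 1) - a i) ^ 2) (n + 1)
    rw [← e3]
    refine Finset.sum_congr rfl fun j _ => ?_
    rw [val_succ n a ha j]
    ring
  rw [e1, e2] at key
  exact key

/-! ### A closed walk using every dart exactly once -/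

section Tour

variable {V : Type*} [Fintype V] [DecidableEq V] (G : SimpleGraph V)

/-- A closed walk at `v` whose darts are distinct and closed under reversal. -/
def Bal (v : V) (W : G.Walk v v) : Prop :=
  W.darts.Nodup ∧ ∀ d ∈ W.darts, d.symm ∈ W.darts

omit [Fintype V] in
lemma extend {v : V} (W : G.Walk v v) (hW : Bal G v W) (d : G.Dart) (hd : d ∉ W.darts)
    (hs : d.fst ∈ W.support) : ∃ W' : G.Walk v v, Bal G v W' ∧ W.length < W'.length := by
  refine ⟨(W.takeUntil d.fst hs).append
    (SimpleGraph.Walk.cons d.adj (SimpleGraph.Walk.cons d.adj.symm (W.dropUntil d.fst hs))), ?_, ?_⟩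
  · have hdarts : ((W.takeUntil d.fst hs).append
        (SimpleGraph.Walk.cons d.adj (SimpleGraph.Walk.cons d.adj.symm (W.dropUntil d.fst hs)))).darts
        = (W.takeUntil d.fst hs).darts ++ (d :: d.symm :: (W.dropUntil d.fst hs).darts) := by
      rw [SimpleGraph.Walk.darts_append, SimpleGraph.Walk.darts_cons, SimpleGraph.Walk.darts_cons]
      rfl
    have hW0 : W.darts = (W.takeUntil d.fst hs).darts ++ (W.dropUntil d.fst hs).darts := by
      rw [← SimpleGraph.Walk.darts_append, SimpleGraph.Walk.take_spec]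
    have hperm : List.Perm ((W.takeUntil d.fst hs).darts ++ (d :: d.symm :: (W.dropUntil d.fst hs).darts))
        (d :: d.symm :: W.darts) := by
      rw [hW0]
      refine (List.perm_middle).trans ?_
      exact List.Perm.cons _ List.perm_middle
    have hds : d.symm ∉ W.darts := by
      intro h
      have := hW.2 _ h
      rw [SimpleGraph.Dart.symm_symm] at this
      exact hd this
    refine ⟨?_, ?_⟩
    · rw [hdarts, hperm.nodup_iff]
      refine List.nodup_cons.mpr ⟨?_, List.nodup_cons.mpr ⟨hds, hW.1⟩⟩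
      intro h
      rcases List.mem_cons.mp h with h | h
      · exact d.symm_ne h.symm
      · exact hd h
    · intro e he
      rw [hdarts, hperm.mem_iff] at he ⊢
      rcases List.mem_cons.mp he with h | h
      · subst h; simp
      rcases List.mem_cons.mp h with h | h
      · subst h; simp
      · exact List.mem_cons_of_mem _ (List.mem_cons_of_mem _ (hW.2 _ h))
  · have := congrArg SimpleGraph.Walk.length (W.take_spec hs)
    rw [SimpleGraph.Walk.length_append] at this ⊢
    simp only [SimpleGraph.Walk.length_cons]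
    omega

theorem exists_tour (hG : G.Connected) (v : V) :
    ∃ W : G.Walk v v, W.darts.Nodup ∧ ∀ d : G.Dart, d ∈ W.darts := by
  classical
  -- lengths of balanced closed walks are bounded
  have hb : ∀ W : G.Walk v v, Bal G v W → W.length ≤ Fintype.card G.Dart := by
    intro W hW
    rw [← SimpleGraph.Walk.length_darts]
    exact hW.1.length_le_card
  let P : ℕ → Prop := fun n => ∃ W : G.Walk v v, Bal G v W ∧ W.length = n
  have hP0 : P 0 := ⟨SimpleGraph.Walk.nil, ⟨by simp, by simp⟩, rfl⟩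
  obtain ⟨W, hW, hlen⟩ := Nat.findGreatest_spec (P := P) (Nat.zero_le (Fintype.card G.Dart)) hP0
  refine ⟨W, hW.1, ?_⟩
  by_contra hcon
  push Not at hcon
  obtain ⟨d, hd⟩ := hcon
  have hex : ∃ e : G.Dart, e ∉ W.darts ∧ e.fst ∈ W.support := by
    by_cases h : d.fst ∈ W.support
    · exact ⟨d, hd, h⟩
    · obtain ⟨p⟩ := hG.preconnected v d.fst
      obtain ⟨e, -, h1, h2⟩ := p.exists_boundary_dart {x | x ∈ W.support} W.start_mem_support h
      exact ⟨e, fun he => h2 (W.dart_snd_mem_support_of_mem_darts he), h1⟩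
  obtain ⟨e, he, hs⟩ := hex
  obtain ⟨W', hW', hlt⟩ := extend G W hW e he hs
  have h3 : W'.length ≤ Nat.findGreatest P (Fintype.card G.Dart) :=
    Nat.le_findGreatest (hb W' hW') ⟨W', hW', rfl⟩
  rw [← hlen] at h3
  omega

end Tour

/-! ### The spectral gap of simple random walk on a graph with `m` edges -/

section Main

variable {V : Type*} [Fintype V] [DecidableEq V] (G : SimpleGraph V) [DecidableRel G.Adj]

/-- Sums along a tour are sums over all darts. -/
lemma tour_sum {v : V} (W : G.Walk v v) (h1 : W.darts.Nodup) (h2 : ∀ d : G.Dart, d ∈ W.darts)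
    (g : V → V → ℝ) :
    ∑ i ∈ range W.length, g (W.getVert i) (W.getVert (i + 1)) = ∑ d : G.Dart, g d.fst d.snd := by
  have e1 : ∑ d : G.Dart, g d.fst d.snd = (W.darts.map (fun d => g d.fst d.snd)).sum := by
    rw [← List.sum_toFinset _ h1]
    refine Finset.sum_congr ?_ (fun _ _ => rfl)
    ext d
    simp [h2 d]
  have e2 : ∀ {u w : V} (p : G.Walk u w),
      ∑ i ∈ range p.length, g (p.getVert i) (p.getVert (i + 1))
        = (p.darts.map (fun d => g d.fst d.snd)).sum := by
    intro u w p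
    induction p with
    | nil => simp
    | cons h p ih =>
      rw [SimpleGraph.Walk.length_cons, Finset.sum_range_succ']
      simp only [SimpleGraph.Walk.getVert_cons_succ, SimpleGraph.Walk.darts_cons, List.map_cons,
        List.sum_cons, SimpleGraph.Walk.getVert_zero]
      rw [ih, add_comm]
  rw [e1, e2]

lemma dart_sum_fst (g : V → ℝ) : ∑ d : G.Dart, g d.fst = ∑ v, (G.degree v : ℝ) * g v := by
  rw [← Finset.sum_fiberwise (Finset.univ : Finset G.Dart) (fun d => d.fst) (fun d => g d.fst)]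
  refine Finset.sum_congr rfl fun v _ => ?_
  rw [← G.dart_fst_fiber_card_eq_degree v]
  rw [Finset.sum_congr rfl (g := fun _ => g v) (fun d hd => by rw [(Finset.mem_filter.mp hd).2])]
  rw [Finset.sum_const, nsmul_eq_mul]

omit [DecidableEq V] in
lemma dart_sum_pair (g : V → V → ℝ) :
    ∑ d : G.Dart, g d.fst d.snd = ∑ u, ∑ v, (if G.Adj u v then g u v else 0) := by
  rw [← Finset.sum_product' (f := fun u v => if G.Adj u v then g u v else 0),
    ← Finset.sum_filter]
  refine Finset.sum_bij (fun d _ => d.toProd) ?_ ?_ ?_ ?_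
  · intro d _
    simp [d.adj]
  · intro d _ e _ h
    exact SimpleGraph.Dart.ext _ _ h
  · intro p hp
    have : G.Adj p.1 p.2 := by simpa using hp
    exact ⟨⟨p, this⟩, Finset.mem_univ _, rfl⟩
  · intro d _
    rfl

/-- **Main theorem.** For a connected graph with `m ≥ 1` edges the spectral gap of simple random
walk is at least `1 - cos (π / m)`, the spectral gap of the path with `m` edges. -/
theorem gap (hG : G.Connected) (hm : 0 < G.edgeFinset.card) (f : V → ℝ) :
    ∃ c : ℝ, (1 - Real.cos (Real.pi / G.edgeFinset.card)) *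
        ∑ v, (G.degree v : ℝ) * (f v - c) ^ 2
      ≤ (1 / 2 : ℝ) * ∑ u, ∑ v, (if G.Adj u v then (f u - f v) ^ 2 else 0) := by
  obtain ⟨v0⟩ := hG.nonempty
  obtain ⟨W, h1, h2⟩ := exists_tour G hG v0
  set m := G.edgeFinset.card with hmdef
  have hlen : W.length = 2 * m := by
    rw [hmdef, ← G.dart_card_eq_twice_card_edges, ← SimpleGraph.Walk.length_darts,
      ← List.toFinset_card_of_nodup h1, ← Finset.card_univ]
    congr 1
    ext d
    simp [h2 d]
  have hN : 0 < W.length := by omega
  have hNR : (0 : ℝ) < W.length := by exact_mod_cast hN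
  set a : ℕ → ℝ := fun i => f (W.getVert i) with ha
  set c : ℝ := (∑ i ∈ range W.length, a i) / W.length with hc
  refine ⟨c, ?_⟩
  have hclosed : a W.length = a 0 := by simp [ha]
  have hc0 : ∑ i ∈ range W.length, (a i - c) = 0 := by
    rw [Finset.sum_sub_distrib, Finset.sum_const, card_range, nsmul_eq_mul, hc]
    field_simp
    ring
  have key := wirtinger W.length hN a hclosed c hc0
  have e1 : ∑ i ∈ range W.length, (a i - c) ^ 2 = ∑ v, (G.degree v : ℝ) * (f v - c) ^ 2 := by
    have := tour_sum G W h1 h2 (fun x _ => (f x - c) ^ 2)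
    rw [dart_sum_fst G (fun x => (f x - c) ^ 2)] at this
    exact this
  have e2 : ∑ i ∈ range W.length, (a (i + 1) - a i) ^ 2
      = ∑ u, ∑ v, (if G.Adj u v then (f u - f v) ^ 2 else 0) := by
    have := tour_sum G W h1 h2 (fun x y => (f x - f y) ^ 2)
    rw [dart_sum_pair G (fun x y => (f x - f y) ^ 2)] at this
    rw [← this]
    refine Finset.sum_congr rfl fun i _ => ?_
    simp only [ha]
    ring
  rw [e1, e2] at key
  have e3 : (2 * Real.pi / (W.length : ℝ)) = Real.pi / m := by
    rw [hlen]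
    push_cast
    have : (m : ℝ) ≠ 0 := by positivity
    field_simp
  rw [e3] at key
  linarith

end Main

end Run7.h394.Relax
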